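import Pool.Agent.MP_fcd29e_an.H81.Spec2

/-!
The pairing of the current with the extension vanishes.
-/

set_option autoImplicit false

open Pool.Agent.MP_fcd29e_an.H81 MeasureTheory Complex Set Filter Topology Metric
open scoped ContDiff ComplexConjugate ENNReal NNReal

namespace Pool.Agent.MP_fcd29e_an.H66

variable {N : ℕ}

theorem test_mul (L : Lv0) {ψ s : E N → ℂ} (h : Test (E0 N) ψ) (hs : ContDiffOn ℝ ∞ s (E0 N)) :
    Tst fun z => ψ z * s z := by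
  have := ((L.t1 N (E0 N) isOpen_E0 (by simp)).2.2.2.1 ψ h).1 s hs
  simp only [mul_comm (ψ _)]
  exact ⟨this.1, this.2.1⟩

theorem tst_add {f g : E N → ℂ} (hf : Tst f) (hg : Tst g) : Tst fun z => f z + g z :=
  ⟨hf.1.add hg.1, hf.2.add hg.2⟩

theorem tst_sub {f g : E N → ℂ} (hf : Tst f) (hg : Tst g) : Tst fun z => f z - g z :=
  ⟨hf.1.sub hg.1, hf.2.sub hg.2⟩

theorem tst_scale {f : E N → ℂ} (hf : Tst f) {r : ℝ} (hr : 0 < r) :
    Tst fun z => ((r ^ 2 : ℝ) : ℂ) * f (r • z) :=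
  ⟨contDiff_const.mul (hf.1.comp (contDiff_const_smul r)),
    (hf.2.comp_smul hr.ne').mul_left⟩

theorem d1_smooth {α : Fin N → E N → ℂ} (h : ∀ k, ContDiffOn ℝ ∞ (α k) (E0 N)) (j k : Fin N) :
    ContDiffOn ℝ ∞ (d1 α j k) (E0 N) := fun _ hz =>
  ((contDiffAt_dzb j ((h k).contDiffAt (isOpen_E0.mem_nhds hz))).sub
    (contDiffAt_dzb k ((h j).contDiffAt (isOpen_E0.mem_nhds hz)))).contDiffWithinAt

theorem test_dcut (hl : StmtLOG) : Test (E0 N) fun z => ((deriv cut (‖z‖ ^ 2) : ℝ) : ℂ) := by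
  obtain ⟨-, hc, hb, -⟩ := hl
  have h1 : ContDiff ℝ ∞ (deriv cut) := hc.iterate_deriv 1
  refine ⟨ofRealCLM.contDiff.comp (h1.comp (contDiff_norm_sq ℝ)), ?_, ?_⟩
  · refine HasCompactSupport.intro (isCompact_closedBall (0 : E N) 2) fun z hz => ?_
    have : 2 < ‖z‖ := by simpa using hz
    rw [(hb _).2.2.2.2 (.inr (by nlinarith)), ofReal_zero]
  · refine (closure_minimal (t := {z : E N | 1 ≤ ‖z‖ ^ 2}) (fun z hz => ?_)
      (isClosed_le continuous_const (by fun_prop))).trans fun z hz e => ?_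
    · by_contra h
      exact hz (ofReal_eq_zero.2 ((hb _).2.2.2.2 (.inl (not_le.1 h))))
    · rw [mem_singleton_iff.1 e] at hz
      norm_num at hz

/-- The boundary term of the radial cut-off. -/
noncomputable def bt (α : Fin N → E N → ℂ) (j k : Fin N) (z : E N) : ℂ :=
  ((deriv cut (‖z‖ ^ 2) : ℝ) : ℂ) * (z j * α k z - z k * α j z)

theorem bt_scale {α : Fin N → E N → ℂ} (h : ∀ k, Hom (E0 N) 0 (-1) (α k)) (j k : Fin N) {r : ℝ}
    (hr : 0 < r) {z : E N} (hz : z ≠ 0) :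
    bt α j k (r • z) = ((deriv cut (‖z‖ ^ 2 * r ^ 2) : ℝ) : ℂ) * (z j * α k z - z k * α j z) := by
  have hr' : (r : ℂ) ≠ 0 := ofReal_ne_zero.2 hr.ne'
  have e : r • z = (r : ℂ) • z := rfl
  have e1 : ‖r • z‖ ^ 2 = ‖z‖ ^ 2 * r ^ 2 := by
    rw [norm_smul, Real.norm_eq_abs, mul_pow, sq_abs, mul_comm]
  rw [bt, e1, e, h k _ hr' z hz, h j _ hr' z hz]
  simp only [PiLp.smul_apply, smul_eq_mul, conj_ofReal, zpow_zero, zpow_neg, zpow_one]
  field_simp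

theorem hasDerivAt_thL (hl : StmtLOG) (L : ℕ) (s : ℝ) :
    HasDerivAt (thL L) (Real.exp L ^ 2 * deriv cut (s * Real.exp L ^ 2) -
      Real.exp (-L) ^ 2 * deriv cut (s * Real.exp (-L) ^ 2)) s := by
  have hc : ∀ x, HasDerivAt cut (deriv cut x) x := fun x =>
    (hl.2.1.differentiable (by simp) x).hasDerivAt
  have e1 : Real.exp (2 * L) = Real.exp L ^ 2 := by rw [← Real.exp_nat_mul]; norm_num
  have e2 : Real.exp (-(2 * L)) = Real.exp (-L) ^ 2 := by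
    rw [← Real.exp_nat_mul]; congr 1; push_cast; ring
  have h1 := ((hc (s * Real.exp L ^ 2)).comp s (hasDerivAt_mul_const _)).sub
    ((hc (s * Real.exp (-L) ^ 2)).comp s (hasDerivAt_mul_const _))
  have e : thL L = (cut ∘ fun x => x * Real.exp L ^ 2) - cut ∘ fun x => x * Real.exp (-L) ^ 2 := by
    funext x
    simp only [thL, e1, e2, Pi.sub_apply, Function.comp]
  rw [e]
  exact h1.congr_deriv (by ring)

theorem d1_cut (hl : StmtLOG) {α : Fin N → E N → ℂ} (hs : ∀ k, ContDiffOn ℝ ∞ (α k) (E0 N))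
    (hh : ∀ k, Hom (E0 N) 0 (-1) (α k)) (L : ℕ) (χ : E N → ℝ) (j k : Fin N) (z : E N) :
    d1 (fun k z => (thL L (‖z‖ ^ 2) : ℂ) * α k z) j k z =
      ((χ z * thL L (‖z‖ ^ 2) : ℝ) * d1 α j k z +
        ((1 - χ z) * thL L (‖z‖ ^ 2) : ℝ) * d1 α j k z) +
      (((Real.exp L ^ 2 : ℝ) : ℂ) * bt α j k (Real.exp L • z) -
        ((Real.exp (-L) ^ 2 : ℝ) : ℂ) * bt α j k (Real.exp (-L) • z)) := by
  obtain ⟨C, -, hC⟩ := hl.2.2.2.2
  have ht := (hC L).2.2.1 N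
  by_cases hz : z = 0
  · subst hz
    have h0 : (fun z : E N => (thL L (‖z‖ ^ 2) : ℂ)) =ᶠ[𝓝 0] 0 :=
      notMem_tsupport_iff_eventuallyEq.1 fun h => ht.2.2 h rfl
    have h1 : ∀ k, (fun z : E N => (thL L (‖z‖ ^ 2) : ℂ) * α k z) =ᶠ[𝓝 0] fun _ => 0 := fun k =>
      h0.mono fun z hz => by
        have : (thL L (‖z‖ ^ 2) : ℂ) = 0 := hz
        simp only [this, zero_mul]
    have h2 : thL L (‖(0 : E N)‖ ^ 2) = 0 := ofReal_eq_zero.1 h0.self_of_nhds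
    simp only [d1, dzb_congr (h1 _), dzb_const, h2, smul_zero, bt]
    simp
  · have hd : ∀ k, DifferentiableAt ℝ (α k) z := fun k =>
      ContDiffAt.da ((hs k).contDiffAt (isOpen_E0.mem_nhds hz))
    have hn : DifferentiableAt ℝ (fun w : E N => ‖w‖ ^ 2) z :=
      (contDiff_norm_sq ℝ (n := 1)).differentiable (by simp) z
    have h1 : ∀ j, dzb j (fun w : E N => (thL L (‖w‖ ^ 2) : ℂ)) z = _ := fun j =>
      dzb_comp_real j hn (hasDerivAt_thL hl L _)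
    have h2 : DifferentiableAt ℝ (fun w : E N => (thL L (‖w‖ ^ 2) : ℂ)) z :=
      ht.1.differentiable (by simp) z
    rw [bt_scale hh j k (Real.exp_pos _) hz, bt_scale hh j k (Real.exp_pos _) hz]
    simp only [d1, dzb_mul _ h2 (hd _), h1, dzb_normSq]
    push_cast
    ring

theorem eq_zero_of_bound {m A B : ℝ} (hm : 0 ≤ m)
    (h : ∀ L : ℕ, 2 ≤ L → ∃ a, 0 ≤ a ∧ a ^ 2 ≤ A * L ∧ m * L ≤ a + B) : m = 0 := by
  by_contra h0
  have hp : 0 < m := lt_of_le_of_ne hm (Ne.symm h0)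
  obtain ⟨L, hL⟩ := exists_nat_gt (max 2 (max (2 * |B| / m) (4 * |A| / m ^ 2)))
  have l1 : (2 : ℝ) < L := (le_max_left _ _).trans_lt hL
  have l2 : 2 * |B| < L * m :=
    (div_lt_iff₀ hp).1 (((le_max_left _ _).trans (le_max_right _ _)).trans_lt hL)
  have l3 : 4 * |A| < L * m ^ 2 :=
    (div_lt_iff₀ (by positivity)).1 (((le_max_right _ _).trans (le_max_right _ _)).trans_lt hL)
  obtain ⟨a, a0, a1, a2⟩ := h L (by exact_mod_cast l1.le)
  have b1 := le_abs_self B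
  have b2 := le_abs_self A
  have c1 : m * L / 2 ≤ a := by linarith
  have c2 : (m * L / 2) ^ 2 ≤ a ^ 2 := by gcongr
  have c3 : A * L ≤ |A| * L := by gcongr
  have c4 : 4 * |A| * L < L * m ^ 2 * L := by gcongr
  nlinarith

/-- The pairing of `S` with the extension vanishes. -/
theorem g4 (L : Lv0) (hl : StmtLOG) (h5 : StmtD5) (hb : StmtFLB) (s1 : StmtS1) (s2 : StmtS2)
    (s3 : StmtS3) (g1 : StmtG1) (g2 : StmtG2) (g3 : StmtG3) : StmtG4 := by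
  intro N ρ K μ α hN hD hK hP hT hμ hα
  obtain ⟨C₂, hC₂, hV⟩ := hb N ρ K _ α hK hα
  obtain ⟨R, C₁, hC₁, hR⟩ := s3 N ρ K μ (by omega) hD hK hμ
  obtain ⟨C₃, hC₃, hG⟩ := g1 N ρ K hN hK (h5 N ρ K hD hK hP hT)
  obtain ⟨A, hA⟩ := g2 N ρ K μ α R C₁ C₂ C₃ hN hC₁ hC₂ hC₃ hK hα.smooth hR hV
  obtain ⟨B, hB⟩ := g3 N ρ K μ α C₂ C₃ hN hC₂ hC₃ hD hK hμ hα.smooth hV
  obtain ⟨k1, k2, k3, -⟩ := s2 N ρ K μ (by omega) hD hK hμ
  obtain ⟨C, -, hC⟩ := hl.2.2.2.2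
  refine norm_eq_zero.1 (eq_zero_of_bound (A := A) (B := B) (norm_nonneg _) fun n hn => ?_)
  obtain ⟨χ, D, p, ψ, m, c, hg⟩ := hG n hn
  obtain ⟨t1, -, t2, t3⟩ := hC n
  refine ⟨_, norm_nonneg _, hA n χ D p ψ m c hn hg, ?_⟩
  have hχ : ContDiffOn ℝ ∞ (cx χ) (E0 N) := (ofRealCLM.contDiff.comp hg.χs).contDiffOn
  have T1 : ∀ j k, Tst fun z => ((χ z * thL n (‖z‖ ^ 2) : ℝ) : ℂ) * d1 α j k z := fun j k => by
    convert test_mul L (t2 N) (hχ.mul (d1_smooth hα.smooth j k)) using 2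
    push_cast; ring
  have T2 : ∀ j k, Tst fun z => (((1 - χ z) * thL n (‖z‖ ^ 2) : ℝ) : ℂ) * d1 α j k z :=
    fun j k => by
      convert test_mul L (t2 N)
        (((contDiffOn_const (c := (1 : ℂ))).sub hχ).mul (d1_smooth hα.smooth j k)) using 2
      push_cast; ring
  have T3 : ∀ j k, Tst (bt α j k) := fun j k =>
    test_mul L (test_dcut hl) (((contDiff_coord j).contDiffOn.mul (hα.smooth k)).sub
      ((contDiff_coord k).contDiffOn.mul (hα.smooth j)))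
  have T4 : ∀ r : ℝ, 0 < r → ∀ j k, Tst fun z => ((r ^ 2 : ℝ) : ℂ) * bt α j k (r • z) :=
    fun r hr j k => tst_scale (T3 j k) hr
  have e1 := (s1 N ρ K μ hD hK hμ).2.2 _ α (thL n) hα t1
  have e2 := k1 (fun k z => (thL n (‖z‖ ^ 2) : ℂ) * α k z) fun k => test_mul L (t2 N) (hα.smooth k)
  have e3 : d1 (fun k z => (thL n (‖z‖ ^ 2) : ℂ) * α k z) = _ :=
    funext fun j => funext fun k => funext fun z => d1_cut hl hα.smooth hα.hom n χ j k z
  rw [e3, (k2 _ _ (fun j k => tst_add (T1 j k) (T2 j k)) fun j k =>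
      tst_sub (T4 _ (Real.exp_pos _) j k) (T4 _ (Real.exp_pos _) j k)).1, (k2 _ _ T1 T2).1,
    (k2 _ _ (T4 _ (Real.exp_pos _)) (T4 _ (Real.exp_pos _))).2, k3 _ T3 _ (Real.exp_pos _),
    k3 _ T3 _ (Real.exp_pos _), sub_self, add_zero, e1] at e2
  have h1 := t3 (by omega)
  have h2 := congrArg norm e2
  rw [norm_mul, norm_real, Real.norm_eq_abs] at h2
  calc _ ≤ ‖∫ z, ∑ l, ∑ k, PP ρ z l k * dz l (α k) z ∂μ‖ *
        |∫ c : ℂ, thL n (‖c‖ ^ 2) / ‖c‖ ^ 2| := by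
        gcongr; exact h1.trans (le_abs_self _)
    _ ≤ _ := by
        rw [h2]
        exact (norm_add_le _ _).trans (by gcongr; exact hB n χ D p ψ m c hn hg)

end Pool.Agent.MP_fcd29e_an.H66
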